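import Pool.Agent.H5.FR.Stmts

/-!
# CHB: Chebyshev bound for the sum of the squares of the colour sums of the parts
-/

set_option autoImplicit false
set_option linter.unusedSectionVars false

namespace Pool.Agent.H5.FR

open Finset

section CHB

variable {V : Type} [Fintype V] [DecidableEq V] {b : ℕ}

/-- exchange of the value at `w` -/
def chbSwap (w : V) (x : (V → Fin b) × Fin b) : (V → Fin b) × Fin b :=
  (Function.update x.1 w x.2, x.1 w)

theorem chbSwap_inv (w : V) : Function.Involutive (chbSwap (b := b) w) := by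
  rintro ⟨g, j⟩
  simp [chbSwap]

theorem chb_avg (w : V) (F : (V → Fin b) → ℝ) :
    ∑ g : V → Fin b, ∑ j : Fin b, F (Function.update g w j) = b * ∑ g : V → Fin b, F g := by
  have h1 : ∑ g : V → Fin b, ∑ j : Fin b, F (Function.update g w j) =
      ∑ x : (V → Fin b) × Fin b, F (chbSwap w x).1 := by
    rw [← univ_product_univ, sum_product]
    rfl
  have h2 : ∑ x : (V → Fin b) × Fin b, F (chbSwap w x).1 =
      ∑ x : (V → Fin b) × Fin b, F x.1 :=
    Equiv.sum_comp (chbSwap_inv w).toPerm (fun x => F x.1)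
  rw [h1, h2, ← univ_product_univ, sum_product, mul_sum]
  refine sum_congr rfl fun g _ => ?_
  simp only [sum_const, card_univ, Fintype.card_fin, nsmul_eq_mul]

/-- the centred indicator of `g v = g w` -/
noncomputable def chbD (g : V → Fin b) (p : V × V) : ℝ :=
  (if g p.1 = g p.2 then 1 else 0) - 1 / (b : ℝ)

theorem chbD_swap (g : V → Fin b) (p : V × V) : chbD g p.swap = chbD g p := by
  simp only [chbD, Prod.fst_swap, Prod.snd_swap, eq_comm]

theorem chb_sum (hb : 0 < b) (k : Fin b) :
    ∑ j : Fin b, ((if k = j then (1 : ℝ) else 0) - 1 / (b : ℝ)) = 0 := by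
  have hb0 : (0 : ℝ) < b := by positivity
  rw [sum_sub_distrib, sum_ite_eq univ k, if_pos (mem_univ _), sum_const, card_univ,
    Fintype.card_fin, nsmul_eq_mul, mul_one_div_cancel hb0.ne', sub_self]

theorem chb_sum2 (hb : 0 < b) (k : Fin b) :
    ∑ j : Fin b, ((if k = j then (1 : ℝ) else 0) - 1 / (b : ℝ)) ^ 2 ≤ 1 := by
  have hb0 : (0 : ℝ) < b := by positivity
  have h4 : ∀ j : Fin b, ((if k = j then (1 : ℝ) else 0) - 1 / (b : ℝ)) ^ 2 =
      (if k = j then (1 - 2 / (b : ℝ)) else 0) + 1 / (b : ℝ) ^ 2 := by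
    intro j
    split_ifs
    · ring
    · ring
  rw [sum_congr rfl fun j _ => h4 j, sum_add_distrib, sum_ite_eq univ k, if_pos (mem_univ _),
    sum_const, card_univ, Fintype.card_fin, nsmul_eq_mul]
  have h5 : (b : ℝ) * (1 / (b : ℝ) ^ 2) = 1 / b := by
    field_simp
  rw [h5]
  have h6 : 0 < 1 / (b : ℝ) := by positivity
  have h7 : 2 / (b : ℝ) = 2 * (1 / b) := by ring
  rw [h7]
  linarith

theorem chb_orth (hb : 0 < b) {p q : V × V} (h1 : p.1 ≠ p.2) (h2 : p.2 ≠ q.1)
    (h3 : p.2 ≠ q.2) : ∑ g : V → Fin b, chbD g p * chbD g q = 0 := by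
  have hb0 : (0 : ℝ) < b := by positivity
  have h4 := chb_avg (b := b) p.2 (fun g => chbD g p * chbD g q)
  have h5 : ∀ g : V → Fin b, ∑ j : Fin b, chbD (Function.update g p.2 j) p *
      chbD (Function.update g p.2 j) q = 0 := by
    intro g
    have h6 : ∀ j, chbD (Function.update g p.2 j) q = chbD g q := by
      intro j
      simp only [chbD, Function.update_of_ne h2.symm, Function.update_of_ne h3.symm]
    have h7 : ∀ j, chbD (Function.update g p.2 j) p =
        (if g p.1 = j then 1 else 0) - 1 / (b : ℝ) := by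
      intro j
      simp only [chbD, Function.update_of_ne h1, Function.update_self]
    simp only [h6, h7]
    rw [← sum_mul, chb_sum hb, zero_mul]
  rw [sum_congr rfl fun g _ => h5 g, sum_const_zero] at h4
  rcases mul_eq_zero.mp h4.symm with h | h
  · exact absurd h hb0.ne'
  · exact h

theorem chb_diag (hb : 0 < b) {p : V × V} (h1 : p.1 ≠ p.2) :
    ∑ g : V → Fin b, chbD g p * chbD g p ≤ (Fintype.card (V → Fin b) : ℝ) / b := by
  have hb0 : (0 : ℝ) < b := by positivity
  have h4 := chb_avg (b := b) p.2 (fun g => chbD g p * chbD g p)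
  have h5 : ∀ g : V → Fin b, ∑ j : Fin b, chbD (Function.update g p.2 j) p *
      chbD (Function.update g p.2 j) p ≤ 1 := by
    intro g
    have h7 : ∀ j, chbD (Function.update g p.2 j) p =
        (if g p.1 = j then 1 else 0) - 1 / (b : ℝ) := by
      intro j
      simp only [chbD, Function.update_of_ne h1, Function.update_self]
    simp only [h7, ← sq]
    exact chb_sum2 hb _
  have h6 := sum_le_sum (s := (univ : Finset (V → Fin b))) fun g _ => h5 g
  rw [h4, sum_const, card_univ, nsmul_eq_mul, mul_one] at h6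
  rw [le_div_iff₀ hb0]
  linarith

/-- the covariances -/
theorem chb_cov (hb : 0 < b) {p q : V × V} (hp : p.1 ≠ p.2) (hq : q.1 ≠ q.2) :
    |∑ g : V → Fin b, chbD g p * chbD g q| ≤
      (if q = p then (Fintype.card (V → Fin b) : ℝ) / b else 0) +
      (if q = p.swap then (Fintype.card (V → Fin b) : ℝ) / b else 0) := by
  have hb0 : (0 : ℝ) < b := by positivity
  have hT : 0 ≤ (Fintype.card (V → Fin b) : ℝ) / b := by positivity
  by_cases h1 : q = p
  · subst h1
    rw [if_pos rfl, abs_of_nonneg (sum_nonneg fun g _ => mul_self_nonneg _)]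
    have := chb_diag hb hq
    split_ifs <;> linarith
  by_cases h2 : q = p.swap
  · subst h2
    rw [if_neg h1, if_pos rfl]
    simp only [chbD_swap]
    rw [abs_of_nonneg (sum_nonneg fun g _ => mul_self_nonneg _)]
    have := chb_diag hb hp
    linarith
  rw [if_neg h1, if_neg h2, add_zero]
  have h3 : ∑ g : V → Fin b, chbD g p * chbD g q = 0 := by
    by_cases h4 : p.2 ≠ q.1 ∧ p.2 ≠ q.2
    · exact chb_orth hb hp h4.1 h4.2
    · by_cases h5 : p.1 ≠ q.1 ∧ p.1 ≠ q.2
      · have := chb_orth hb (p := p.swap) (q := q) hp.symm h5.1 h5.2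
        simp only [chbD_swap] at this
        exact this
      · exfalso
        obtain ⟨p1, p2⟩ := p
        obtain ⟨q1, q2⟩ := q
        simp only [Prod.swap_prod_mk, Prod.mk.injEq, ne_eq, not_and, not_not] at *
        by_cases e1 : p2 = q1
        · by_cases e2 : p1 = q1
          · exact hp (e2.trans e1.symm)
          · exact h2 e1.symm (h5 e2).symm
        · have e2 := h4 e1
          by_cases e3 : p1 = q1
          · exact h1 e3.symm e2.symm
          · exact hp ((h5 e3).trans e2.symm)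
  rw [h3, abs_zero]

end CHB

theorem chb_thm : CHBStmt := by
  intro V _ _ b hb χ hχ c
  have hbp : 0 < b := by omega
  have hb0 : (0 : ℝ) < b := by positivity
  have hb6 : (6 : ℝ) ≤ b := by exact_mod_cast hb
  set f : (V → Fin b) → ℝ := fun g => ∑ k, ((cs χ (part c g k) : ℤ) : ℝ) ^ 2 with hf
  set T : ℝ := (Fintype.card (V → Fin b) : ℝ) with hT
  have hT0 : 0 ≤ T := by positivity
  set μ : ℝ := c.card + (((∑ v ∈ c, (χ v : ℝ)) ^ 2 - c.card) / b) with hμ
  have hχ2 : ∀ v, (χ v : ℝ) * (χ v : ℝ) = 1 := by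
    intro v
    rcases hχ v with h | h <;> rw [h] <;> norm_num
  have hχa : ∀ v, |(χ v : ℝ)| = 1 := by
    intro v
    rcases hχ v with h | h <;> rw [h] <;> norm_num
  -- the sum over pairs
  have h1 : ∀ g, f g = ∑ p ∈ c ×ˢ c, (χ p.1 : ℝ) * χ p.2 * (if g p.1 = g p.2 then 1 else 0) := by
    intro g
    have h2 : ∀ k, ((cs χ (part c g k) : ℤ) : ℝ) = ∑ v ∈ c, (χ v : ℝ) * (if g v = k then 1 else 0) := by
      intro k
      rw [cs, part, Int.cast_sum, sum_filter]
      refine sum_congr rfl fun v _ => ?_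
      split_ifs <;> simp
    rw [hf]
    simp only [h2]
    have h3 : ∀ k, (∑ v ∈ c, (χ v : ℝ) * (if g v = k then 1 else 0)) ^ 2 =
        ∑ p ∈ c ×ˢ c, (χ p.1 : ℝ) * χ p.2 *
          ((if g p.1 = k then 1 else 0) * (if g p.2 = k then 1 else 0)) := by
      intro k
      rw [sq, sum_mul_sum, ← sum_product']
      refine sum_congr rfl fun p _ => ?_
      ring
    rw [sum_congr rfl fun k _ => h3 k, sum_comm]
    refine sum_congr rfl fun p _ => ?_
    rw [← mul_sum]
    congr 1
    by_cases h : g p.1 = g p.2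
    · rw [if_pos h, h]
      simp
    · rw [if_neg h]
      apply sum_eq_zero
      intro k _
      by_cases h' : g p.1 = k
      · rw [if_neg (show g p.2 ≠ k from fun e => h (h'.trans e.symm)), mul_zero]
      · rw [if_neg h', zero_mul]
  have h2 : ∀ g, f g - μ = ∑ p ∈ c.offDiag, (χ p.1 : ℝ) * χ p.2 * chbD g p := by
    intro g
    have h3 : ∀ F : V × V → ℝ, ∑ p ∈ c ×ˢ c, F p = ∑ p ∈ c.offDiag, F p + ∑ v ∈ c, F (v, v) := by
      intro F
      rw [← diag_union_offDiag, sum_union (disjoint_diag_offDiag _), add_comm, sum_diag]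
    have h4 : (∑ v ∈ c, (χ v : ℝ)) ^ 2 = ∑ p ∈ c.offDiag, (χ p.1 : ℝ) * χ p.2 + c.card := by
      rw [sq, sum_mul_sum, ← sum_product', h3 fun p => (χ p.1 : ℝ) * χ p.2]
      simp only [hχ2, sum_const, nsmul_eq_mul, mul_one]
    rw [h1, h3, hμ, h4]
    simp only [hχ2, if_true, one_mul, sum_const, nsmul_eq_mul, mul_one, chbD, mul_sub,
      sum_sub_distrib]
    rw [← sum_mul]
    ring
  have h3 : ∑ g, (f g - μ) ^ 2 ≤ 2 * (c.card : ℝ) ^ 2 * (T / b) := by
    have h4 : ∀ g, (f g - μ) ^ 2 = ∑ p ∈ c.offDiag, ∑ q ∈ c.offDiag,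
        ((χ p.1 : ℝ) * χ p.2 * (χ q.1 * χ q.2)) * (chbD g p * chbD g q) := by
      intro g
      rw [h2, sq, sum_mul_sum]
      refine sum_congr rfl fun p _ => sum_congr rfl fun q _ => ?_
      ring
    rw [sum_congr rfl fun g _ => h4 g, sum_comm]
    have h5 : ∀ p ∈ c.offDiag, ∑ g : V → Fin b, ∑ q ∈ c.offDiag,
        ((χ p.1 : ℝ) * χ p.2 * (χ q.1 * χ q.2)) * (chbD g p * chbD g q) ≤ 2 * (T / b) := by
      intro p hp
      rw [sum_comm]
      have hp' := (mem_offDiag.mp hp).2.2
      calc ∑ q ∈ c.offDiag, ∑ g : V → Fin b,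
            ((χ p.1 : ℝ) * χ p.2 * (χ q.1 * χ q.2)) * (chbD g p * chbD g q)
          ≤ ∑ q ∈ c.offDiag, ((if q = p then T / b else 0) + (if q = p.swap then T / b else 0)) := by
            refine sum_le_sum fun q hq => ?_
            rw [← mul_sum]
            refine (le_abs_self _).trans ?_
            rw [abs_mul, abs_mul, abs_mul, abs_mul, hχa, hχa, hχa, hχa]
            simp only [mul_one, one_mul]
            exact chb_cov hbp hp' (mem_offDiag.mp hq).2.2
        _ ≤ 2 * (T / b) := by
            rw [sum_add_distrib, sum_ite_eq' _ p, sum_ite_eq' _ p.swap]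
            have hTb : 0 ≤ T / b := by positivity
            split_ifs <;> linarith
    refine (sum_le_sum h5).trans ?_
    rw [sum_const, nsmul_eq_mul, offDiag_card]
    have h6 : ((c.card * c.card - c.card : ℕ) : ℝ) ≤ (c.card : ℝ) ^ 2 := by
      rw [sq]
      exact_mod_cast Nat.sub_le _ _
    have h7 : 0 ≤ 2 * (T / b) := by positivity
    calc ((c.card * c.card - c.card : ℕ) : ℝ) * (2 * (T / b)) ≤ (c.card : ℝ) ^ 2 * (2 * (T / b)) :=
          mul_le_mul_of_nonneg_right h6 h7
      _ = _ := by ring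
  rcases Nat.eq_zero_or_pos c.card with h0 | h0
  · have h4 : (univ.filter (fun g : V → Fin b => f g < (c.card : ℝ) / 2)) = ∅ := by
      rw [filter_eq_empty_iff]
      intro g _
      rw [h0, not_lt]
      simp only [Nat.cast_zero, zero_div]
      exact sum_nonneg fun k _ => sq_nonneg _
    rw [h4, card_empty, Nat.cast_zero]
    positivity
  have hc0 : (0 : ℝ) < c.card := by exact_mod_cast h0
  have h4 : ((univ.filter (fun g : V → Fin b => f g < (c.card : ℝ) / 2)).card : ℝ) *
      ((c.card : ℝ) ^ 2 / 9) ≤ ∑ g, (f g - μ) ^ 2 := by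
    rw [← nsmul_eq_mul, ← sum_const]
    calc ∑ g ∈ univ.filter (fun g : V → Fin b => f g < (c.card : ℝ) / 2), ((c.card : ℝ) ^ 2 / 9)
        ≤ ∑ g ∈ univ.filter (fun g : V → Fin b => f g < (c.card : ℝ) / 2), (f g - μ) ^ 2 := by
          refine sum_le_sum fun g hg => ?_
          have hg' := (mem_filter.mp hg).2
          have h5 : (c.card : ℝ) - c.card / 6 ≤ μ := by
            have h6 : -(c.card / 6 : ℝ) ≤ ((∑ v ∈ c, (χ v : ℝ)) ^ 2 - c.card) / b := by
              rw [le_div_iff₀ hb0]
              have h7 : (c.card : ℝ) ≤ c.card / 6 * b := by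
                have := mul_le_mul_of_nonneg_left hb6 (show 0 ≤ (c.card : ℝ) / 6 by positivity)
                linarith
              have h8 := sq_nonneg (∑ v ∈ c, (χ v : ℝ))
              linarith
            rw [hμ]
            linarith
          have h6 : (c.card : ℝ) / 3 ≤ μ - f g := by linarith
          calc (c.card : ℝ) ^ 2 / 9 = ((c.card : ℝ) / 3) ^ 2 := by ring
            _ ≤ (μ - f g) ^ 2 := pow_le_pow_left₀ (by positivity) h6 2
            _ = (f g - μ) ^ 2 := by ring
      _ ≤ ∑ g, (f g - μ) ^ 2 := by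
          apply sum_le_sum_of_subset_of_nonneg (filter_subset _ _)
          intro g _ _
          exact sq_nonneg _
  have h5 := h4.trans h3
  have h6 : ((univ.filter (fun g : V → Fin b => f g < (c.card : ℝ) / 2)).card : ℝ) ≤
      (2 * (c.card : ℝ) ^ 2 * (T / b)) / ((c.card : ℝ) ^ 2 / 9) := by
    rw [le_div_iff₀ (by positivity)]
    exact h5
  refine h6.trans (le_of_eq ?_)
  field_simp
  ring

end Pool.Agent.H5.FR
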